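import Pool.Agent.Run7.h509.Res

/-!
# Highly twisted diagrams with an arborescent part

Starting library (`Pool.Agent.H891R2.MT.Defs`, `Pool.Agent.H891R2.MT.T7`): `UDiagram` is the type of
unoriented link diagrams; `Ribbon k` is the type of ribbon graphs with `k` edges; `Γ.Planar`: `Γ` is connected
and plane; `Γ.verts`: the number of vertices; `Γ.comps A`: the number of connected components of the
spanning subgraph with the edge set `A`; `SpanLE s U`: for some directions the Jones polynomial of `U` has
span at most `s` (in the variable `t = A⁻⁴`); `UnlinkJones c U`: for some directions the Jones polynomial is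
the one of the unlink with `c` components (`c = 1`: the normalised bracket is `1`).

Definitions of `Pool.Agent.Run7.h509.Defs`:

* `twistLink Γ S w`, for a set `S` of edges and `w ∈ ℤ^k`: the link diagram which has, at every edge `e` of the
  plane graph `Γ`, a twist region of `|w e|` crossings, of the kind given by the sign of `w e`; for `e ∉ S` the
  crossings form a row along the edge `e`, for `e ∈ S` they form a row across the edge `e`.  (Every
  connected plane diagram whose crossings are divided into `k` twist regions, rows of crossings of the
  same kind, is of this form.)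
* `TwistReduced Γ S Y`: no edge in `Y ∩ S` is a loop, no two of them are parallel, no edge in `Y \ S` is a
  bridge, no two of them form an edge cut of `Γ`;
* `Spans Γ S Y`: `Y ∩ S` spans the subgraph `S`, and the edges outside `S ∪ Y` form a forest in `Γ / S`;
* `gr Γ`: the rank function of the cycle matroid of `Γ`;
* `SP r Y C`: the minor of the matroid with rank function `r` with the elements `Y`, in which the elements
  of `C` are contracted and all others are deleted, is series-parallel: it can be reduced to the empty
  matroid by deleting loops, contracting coloops, deleting one of two parallel elements and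
  contracting one of two elements in series.  So `SP (gr Γ) (Y ∩ S) ∅` says that the subgraph `Y ∩ S` of `Γ`
  is series-parallel, and `SP (gr Γ) (Y \ S) (S ∪ Yᶜ)` says that the graph with the edges `Y \ S` which is
  obtained from `Γ` by contracting all other edges is series-parallel.  (`Γ` itself may be any plane graph.)

Definition of `Pool.Agent.Run7.h509.Res`: `errB k c s D = (k + 1) (k + 1)! c^(k + 1) (3 k + s + D)`.

Proof: if the span is small, then the cluster argument (see `BalancedTwists`) shows that the sum of
`∏_{e ∈ Q} (u e - 1)` over the spanning sets `Q` of the direct sum of the cycle matroid of `S` and of the dual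
of the cycle matroid of `Γ / S` vanishes for `u e = exp (2 π i y e / m)`, if `y(R) = y(R')` for all `R`, `R'` with
`2 |w(R) - w(R')| ≤ 6 k + 2 s`.  By Cramer's rule there are such rational numbers `y e` near `w e` and `m` near
`M` with `y e = a e m` for `e ∉ Y`.  So `u e = 1` for `e ∉ Y` and `u e ≠ 1` for `e ∈ Y`, and the sum reduces
to the matroid restricted to `Y`, which is series-parallel; for such matroids it is not zero.
-/

set_option autoImplicit false

namespace Pool.Agent.Results.MP_42db45_gt.ArborescentPart

open Finset Pool.Agent.H891R2.MT Pool.Agent.H891R2.DS Run7.h509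

/-- Let `Γ` be a connected plane graph with `k` edges, `S` a set of edges, `L(w) = twistLink Γ S w` for `w ∈ ℤ^k`,
and let `Y` be a nonempty spanning set of twist regions at which the diagrams are twist-reduced, such that
the subgraph `Y ∩ S` and the graph obtained by contracting all edges outside `Y \ S` are series-parallel.

* Suppose that the numbers of crossings of the twist regions outside `Y` are near to multiples of a number `M`
  and those of the regions in `Y` are not: there are integers `a e`, `|a e| ≤ c`, with `|w e - a e M| ≤ D` for
  `e ∉ Y`, and `|w e - j M| > B (|j| + 1)` for all `e ∈ Y` and all integers `j`, where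
  `B = errB k c s D < M`.  Then the Jones polynomial of `L(w)` has span larger than `s`, and it is not the
  Jones polynomial of an unlink with at most `s + 1` components.
* This is the case if the twist regions outside `Y` are short or have maximal length: `|w e| ≤ D` or
  `M ≤ |w e| ≤ M + D` for `e ∉ Y`, and `B < |w e| < M - 2 B` for `e ∈ Y`, where `B = errB k 1 s D`.

The signs of the `w e` are arbitrary. -/
theorem result {k : ℕ} (Γ : Ribbon k) (hΓ : Γ.Planar) (S Y : Finset (Fin k)) (hY : Y.Nonempty)
    (hred : TwistReduced Γ S Y) (hsp : Spans Γ S Y)
    (hSP : SP (gr Γ) (Y ∩ S) ∅ ∧ SP (gr Γ) (Y \ S) (S ∪ Yᶜ)) (s D : ℕ) (w : Fin k → ℤ) (M : ℤ)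
    (h : (∃ (c : ℕ) (a : Fin k → ℤ), 1 ≤ c ∧ errB k c s D < M ∧
        (∀ e, e ∉ Y → |a e| ≤ c ∧ |w e - a e * M| ≤ D) ∧
        ∀ e ∈ Y, ∀ j : ℤ, errB k c s D * (|j| + 1) < |w e - j * M|) ∨
      ((∀ e, e ∉ Y → |w e| ≤ D ∨ (M ≤ |w e| ∧ |w e| ≤ M + D)) ∧
        ∀ e ∈ Y, errB k 1 s D < |w e| ∧ |w e| < M - 2 * errB k 1 s D)) :
    ¬ SpanLE s (twistLink Γ S w) ∧
      ∀ c ≤ s + 1, ¬ UnlinkJones c (twistLink Γ S w) := by
  have hSP' := sp_part hΓ.1 S Y hSP.1 hSP.2
  have key : ¬ SpanLE s (twistLink Γ S w) := by
    rcases h with ⟨c, a, hc, hM, h1, h2⟩ | ⟨h1, h2⟩
    · exact res_main Γ hΓ S Y hY hred hsp hSP' s D c hc w M a (fun e he => (h1 e he).1) hM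
        (fun e he => (h1 e he).2) h2
    · exact max_main Γ hΓ S Y hY hred hsp hSP' s D w M h1 h2
  exact ⟨key, fun c hc hU => key (unlink_span hc _ hU)⟩

end Pool.Agent.Results.MP_42db45_gt.ArborescentPart
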