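import Pool.Agent.Run7.h509.Main

/-!
# Diagrams whose twist regions have about the same size

Starting library (`Pool.Agent.H891R2.MT.Defs`, `Pool.Agent.H891R2.MT.T7`): `UDiagram` is the type of
unoriented link diagrams; `Ribbon k` is the type of ribbon graphs with `k` edges; `Γ.Planar`: `Γ` is connected
and plane; `Γ.verts`: the number of vertices; `Γ.comps A`: the number of connected components of the
spanning subgraph with the edge set `A`; `SpanLE s U`: for some directions the Jones polynomial of `U` has
span at most `s` (in the variable `t = A⁻⁴`); `UnlinkJones c U`: for some directions the Jones polynomial is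
the one of the unlink with `c` components (`c = 1`: the normalised bracket is `1`).

Definitions of `Pool.Agent.Run7.h509.Defs`:

* `twistLink Γ S w`, for a set `S` of edges and `w ∈ ℤ^k`: the link diagram which has, at every edge `e` of the
  plane graph `Γ`, a twist region of `|w e|` crossings, of the kind given by the sign of `w e`; for `e ∉ S` the
  crossings form a row along the edge `e`, for `e ∈ S` they form a row across the edge `e`.  (Every
  connected plane diagram whose crossings are divided into `k` twist regions, rows of crossings of the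
  same kind, is of this form: its checkerboard graph is `Γ` with every edge `e ∉ S` replaced by a path of
  `|w e|` edges and every edge `e ∈ S` replaced by `|w e|` parallel edges.  For `S = ∅` it is `Γ.link w`.)
* `TwistReduced Γ S Y`: no edge in `Y ∩ S` is a loop, no two of them are parallel, no edge in `Y \ S` is a
  bridge, no two of them form an edge cut of `Γ`.  (For `Y = univ`: no twist region is nugatory, and no
  two twist regions can be united by a flype.)
* `Spans Γ S Y`: `Y ∩ S` spans the subgraph `S`, and the edges outside `S ∪ Y` form a forest in `Γ / S`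
  (always true for `Y = univ`).

Proof: the bracket of the diagram is, up to a unit and a power of `δ = - A² - A⁻²`, the sum of
`(- A⁻⁴)^{w(R)} Z(R)` over the sets `R` of edges.  If its span is small, then the exponents decompose into
clusters which cancel, so `(- A⁻⁴)^{w(R)}` may be replaced by any function of `R` which takes equal
values at `R` and `R'` if `2 |w(R) - w(R')| ≤ 6 k + 2 s`, in particular by `∏_{e ∈ R} u e`.  The lowest
order term at `δ = 0` is then the sum of `∏_{e ∈ Q} (u e - 1)` over the spanning sets `Q` of the direct sum of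
the cycle matroid of the subgraph `S` and of the dual of the cycle matroid of `Γ / S`.  This sum is not
zero, because for every simple matroid of rank `r` and weights in `[-2, 0)` the sum of the weights of
the spanning sets has the sign `(-1)^r` (for all weights equal to `-2` this says that the Tutte
polynomial satisfies `T(1, -1) > 0`).
-/

set_option autoImplicit false

namespace Pool.Agent.Results.MP_42db45_gt.BalancedTwists

open Finset Pool.Agent.H891R2.MT Pool.Agent.H891R2.DS Run7.h509

/-- Let `Γ` be a connected plane graph with `k` edges, `S` a set of edges, `L(w) = twistLink Γ S w` for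
`w ∈ ℤ^k`, and let `Y` be a nonempty spanning set of twist regions at which the diagrams are
twist-reduced.

* If there are real numbers `u e`, with `-1 ≤ u e < 1` for `e ∈ Y` and `u e = 1` for `e ∉ Y`, such that
  `∏_{e ∈ R} u e = ∏_{e ∈ R'} u e` for all sets `R`, `R'` of twist regions with
  `2 |w(R) - w(R')| ≤ 6 k + 2 s`, then the Jones polynomial of `L(w)` has span larger than `s`, and it is not
  the Jones polynomial of an unlink with at most `s + 1` components.
* This is the case if, for a real number `M > ∑ e, |w e - M m e| + 3 k + s`, the integers `m e` are odd for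
  `e ∈ Y` and even for `e ∉ Y`; in particular if `|w e| ∈ [M, M + D]` for `e ∈ Y`, with arbitrary signs, and
  `|w e| ≤ D` for `e ∉ Y`, where `M > k (D + 3) + s`. -/
theorem result {k : ℕ} (Γ : Ribbon k) (hΓ : Γ.Planar) (S Y : Finset (Fin k)) (hY : Y.Nonempty)
    (hred : TwistReduced Γ S Y) (hsp : Spans Γ S Y) (s : ℕ) (w : Fin k → ℤ)
    (h : (∃ u : Fin k → ℝ, (∀ e ∈ Y, -1 ≤ u e ∧ u e < 1) ∧ (∀ e, e ∉ Y → u e = 1) ∧
        ∀ R R' : Finset (Fin k), 2 * |∑ e ∈ R, w e - ∑ e ∈ R', w e| ≤ 6 * k + 2 * s →
          ∏ e ∈ R, u e = ∏ e ∈ R', u e) ∨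
      (∃ (M : ℝ) (m : Fin k → ℤ), (∀ e, Odd (m e) ↔ e ∈ Y) ∧
        ∑ e, |(w e : ℝ) - M * m e| + 3 * k + s < M) ∨
      (∃ M D : ℕ, k * (D + 3) + s < M ∧ (∀ e ∈ Y, (M : ℤ) ≤ |w e| ∧ |w e| ≤ M + D) ∧
        ∀ e, e ∉ Y → |w e| ≤ D)) :
    ¬ SpanLE s (twistLink Γ S w) ∧
      ∀ c ≤ s + 1, ¬ UnlinkJones c (twistLink Γ S w) := by
  have key : ¬ SpanLE s (twistLink Γ S w) := by
    rcases h with ⟨u, hu1, hu2, hu3⟩ | ⟨M, m, hm, hM⟩ | ⟨M, D, hM, h1, h2⟩
    · intro h
      obtain ⟨R, R', hc, hne⟩ := real_main Γ hΓ S Y hY hred hsp s w h u hu1 hu2
      exact hne (hu3 R R' hc)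
    · exact odd_main Γ hΓ S Y hY hred hsp s w M m hm hM
    · exact balanced_main Γ hΓ S Y hY hred hsp s w M D hM h1 h2
  exact ⟨key, fun c hc hU => key (unlink_span hc _ hU)⟩

end Pool.Agent.Results.MP_42db45_gt.BalancedTwists
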