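import Pool.Agent.Run7.h509.Par

/-!
# Coincidences between the states of highly twisted diagrams with a short Jones polynomial

Starting library (`Pool.Agent.H891R2.MT.Defs`, `Pool.Agent.H891R2.MT.T7`): `UDiagram` is the type of
unoriented link diagrams; `Ribbon k` is the type of ribbon graphs with `k` edges; `Γ.Planar`: `Γ` is connected
and plane; `Γ.verts`: the number of vertices; `Γ.comps A`: the number of connected components of the
spanning subgraph with the edge set `A`; `SpanLE s U`: for some directions the Jones polynomial of `U` has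
span at most `s` (in the variable `t = A⁻⁴`); `UnlinkJones c U`: for some directions the Jones polynomial is
the one of the unlink with `c` components (`c = 1`: the normalised bracket is `1`).

Definitions of `Pool.Agent.Run7.h509.Defs`, `Pool.Agent.Run7.h509.Rank` and `Pool.Agent.Run7.h509.Par`:

* `twistLink Γ S w`, for a set `S` of edges and `w ∈ ℤ^k`: the link diagram which has, at every edge `e` of the
  plane graph `Γ`, a twist region of `|w e|` crossings, of the kind given by the sign of `w e`; for `e ∉ S` the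
  crossings form a row along the edge `e`, for `e ∈ S` they form a row across the edge `e`.
* `Spans Γ S Y`: `Y ∩ S` spans the subgraph `S`, and the edges outside `S ∪ Y` form a forest in `Γ / S`
  (always true for `Y = univ`).
* `rk Γ S Q = (verts - comps (Q ∩ S)) + (|Q \ S| + 1 - comps (S ∪ Qᶜ))`: the rank of `Q` in the direct sum of the
  cycle matroid of the subgraph `S` and of the dual of the cycle matroid of `Γ / S`.
* `IsFlat Γ S Y F`: `F ⊆ Y`, and the rank of `F` increases by `1` if any element of `Y \ F` is added.  For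
  instance `Y` is a flat, and `∅` is a flat if no twist region in `Y` is nugatory.

Proof: the bracket of the diagram is, up to a unit and a power of `δ = - A² - A⁻²`, the sum of
`(- A⁻⁴)^{w(R)} Z(R)` over the sets `R` of edges.  If its span is small, then the exponents decompose into
clusters, and the lowest order terms at `δ = 0` of the `Z(R)` cancel in every cluster.  The lowest order term
of `Z(R)` is (after summation over the sets with the same intersection with `Y`) the sum of `(-1)^{|Q|}` over
the sets `Q ⊆ Y \ R` for which `Q ∪ R` is spanning.  It is `0` if `R` is not a flat, and it has the sign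
`(-1)^{r(Y) - r(R)}` if `R` is a flat (a Möbius function of the lattice of flats).
-/

set_option autoImplicit false

namespace Pool.Agent.Results.MP_42db45_gt.FlatPartners

open Finset Pool.Agent.H891R2.MT Pool.Agent.H891R2.DS Run7.h509

/-- Let `Γ` be a connected plane graph with `k` edges, `S` a set of edges, `w ∈ ℤ^k`, `L = twistLink Γ S w`, and
let `Y` be a nonempty spanning set of twist regions none of which is nugatory (no edge in `Y ∩ S` is a loop, no
edge in `Y \ S` is a bridge).  Two sets `R`, `R' ⊆ Y` are called near if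
`|w(R) - w(R')| ≤ 3 k + s + ∑_{e ∉ Y} |w e|`, where `w(R) = ∑_{e ∈ R} w e`.

* Suppose that the Jones polynomial of `L` has span at most `s`, or is the one of an unlink with at most
  `s + 1` components.  Let `𝒞` be a family of subsets of `Y` which contains with a set all sets near to it.
  If `𝒞` contains a flat, then it contains a flat whose rank has the other parity.
* In particular every flat `F` of `Y` (for instance `F = ∅` and `F = Y`) is near to another set `R ⊆ Y`.
* So if `|w(R)| > 3 k + s + ∑_{e ∉ Y} |w e|` for all nonempty sets `R ⊆ Y` (for `Y = univ`: if no nonempty set of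
  twist regions has, with signs, almost as many positive as negative crossings), then the Jones polynomial of
  `L` has span larger than `s` and is not the one of an unlink with at most `s + 1` components; for `s = 0`: it is
  not trivial. -/
theorem result {k : ℕ} (Γ : Ribbon k) (hΓ : Γ.Planar) (S Y : Finset (Fin k)) (hY : Y.Nonempty)
    (h1 : ∀ e ∈ Y, e ∈ S → Γ.comps {e} + 1 = Γ.verts) (h2 : ∀ e ∈ Y, e ∉ S → Γ.comps {e}ᶜ = 1)
    (hsp : Spans Γ S Y) (s : ℕ) (w : Fin k → ℤ) :
    (SpanLE s (twistLink Γ S w) ∨ (∃ c ≤ s + 1, UnlinkJones c (twistLink Γ S w)) →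
      (∀ 𝒞 : Finset (Finset (Fin k)), (∀ R ∈ 𝒞, R ⊆ Y) →
        (∀ R ∈ 𝒞, ∀ R' ⊆ Y, |∑ e ∈ R, w e - ∑ e ∈ R', w e| ≤ 3 * k + s + ∑ e ∈ Yᶜ, |w e| → R' ∈ 𝒞) →
        ∀ F ∈ 𝒞, IsFlat Γ S Y F → ∃ F' ∈ 𝒞, IsFlat Γ S Y F' ∧ Odd (rk Γ S F + rk Γ S F')) ∧
      ∀ F, IsFlat Γ S Y F → ∃ R ⊆ Y, R ≠ F ∧
        |∑ e ∈ F, w e - ∑ e ∈ R, w e| ≤ 3 * k + s + ∑ e ∈ Yᶜ, |w e|) ∧
    ((∀ R ⊆ Y, R.Nonempty → 3 * k + s + ∑ e ∈ Yᶜ, |w e| < |∑ e ∈ R, w e|) →
      ¬ SpanLE s (twistLink Γ S w) ∧ ∀ c ≤ s + 1, ¬ UnlinkJones c (twistLink Γ S w)) := by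
  have hk : 0 < k := by
    obtain ⟨e, _⟩ := hY
    exact Fin.pos e
  have key : SpanLE s (twistLink Γ S w) →
      (∀ 𝒞 : Finset (Finset (Fin k)), (∀ R ∈ 𝒞, R ⊆ Y) →
        (∀ R ∈ 𝒞, ∀ R' ⊆ Y, |∑ e ∈ R, w e - ∑ e ∈ R', w e| ≤ 3 * k + s + ∑ e ∈ Yᶜ, |w e| → R' ∈ 𝒞) →
        ∀ F ∈ 𝒞, IsFlat Γ S Y F → ∃ F' ∈ 𝒞, IsFlat Γ S Y F' ∧ Odd (rk Γ S F + rk Γ S F')) := by
    intro h 𝒞 hCY hC F hF hFf
    exact parity_main Γ hk hΓ S Y hsp (rk_Y_pos Γ hΓ S Y hY h1 h2) s w h 𝒞 hCY hC F hF hFf
  refine ⟨fun h => ?_, fun h => ?_⟩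
  · have h' : SpanLE s (twistLink Γ S w) := by
      rcases h with h | ⟨c, hc, hU⟩
      · exact h
      · exact unlink_span hc _ hU
    refine ⟨key h', fun F hF => ?_⟩
    by_contra hcon
    push Not at hcon
    obtain ⟨F', hF', _, hodd⟩ := key h' {F} (by
      intro R hR
      rw [Finset.mem_singleton] at hR
      subst hR
      exact hF.1) (by
      intro R hR R' hR' hc
      rw [Finset.mem_singleton] at hR ⊢
      subst hR
      by_contra hne
      have := hcon R' hR' hne
      linarith) F (Finset.mem_singleton_self _) hF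
    rw [Finset.mem_singleton] at hF'
    subst hF'
    rw [← two_mul] at hodd
    exact Nat.not_odd_iff_even.2 (even_two_mul _) hodd
  · have := zero_sum_free Γ hΓ S Y hY h1 h2 hsp s w h
    exact ⟨this, fun c hc hU => this (unlink_span hc _ hU)⟩

end Pool.Agent.Results.MP_42db45_gt.FlatPartners
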