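import Pool.Agent.Run7.h509.Main
import Pool.Agent.Run7.h509.Minor

/-!
# Highly twisted arborescent diagrams

Starting library (`Pool.Agent.H891R2.MT.Defs`, `Pool.Agent.H891R2.MT.T7`): `UDiagram` is the type of
unoriented link diagrams; `Ribbon k` is the type of ribbon graphs with `k` edges; `Γ.Planar`: `Γ` is connected
and plane; `Γ.verts`: the number of vertices; `Γ.comps A`: the number of connected components of the
spanning subgraph with the edge set `A`; `SpanLE s U`: for some directions the Jones polynomial of `U` has
span at most `s` (in the variable `t = A⁻⁴`); `UnlinkJones c U`: for some directions the Jones polynomial is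
the one of the unlink with `c` components (`c = 1`: the normalised bracket is `1`).

Definitions of `Pool.Agent.Run7.h509.Defs`:

* `twistLink Γ S w`, for a set `S` of edges and `w ∈ ℤ^k`: the link diagram which has, at every edge `e` of the
  plane graph `Γ`, a twist region of `|w e|` crossings, of the kind given by the sign of `w e`; for `e ∉ S` the
  crossings form a row along the edge `e`, for `e ∈ S` they form a row across the edge `e`.  (Every
  connected plane diagram whose crossings are divided into `k` twist regions, rows of crossings of the
  same kind, is of this form: its checkerboard graph is `Γ` with every edge `e ∉ S` replaced by a path of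
  `|w e|` edges and every edge `e ∈ S` replaced by `|w e|` parallel edges.  For `S = ∅` it is `Γ.link w`.)
* `TwistReduced Γ S univ`: no edge in `S` is a loop, no two of them are parallel, no edge outside `S` is a
  bridge, no two of them form an edge cut of `Γ` (no twist region is nugatory, and no two twist regions
  can be united by a flype);
* `Spans Γ S A`: `A ∩ S` spans the subgraph `S`, and the edges outside `S ∪ A` form a forest in `Γ / S`
  (always true for `A = univ`);
* `gr Γ`: the rank function of the cycle matroid of `Γ`;
* `SP r Y C`: the minor of the matroid with rank function `r` with the elements `Y`, in which the elements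
  of `C` are contracted and all others are deleted, is series-parallel: it can be reduced to the empty
  matroid by deleting loops, contracting coloops, deleting one of two parallel elements and
  contracting one of two elements in series.  So `SP (gr Γ) univ ∅` says that the graph `Γ` is
  series-parallel (the diagrams are arborescent, that is, algebraic in the sense of Conway),
  `SP (gr Γ) S ∅` that its subgraph `S` is, and `SP (gr Γ) Sᶜ S` that `Γ / S` is series-parallel.

Proof: if the span is small, then the cluster argument (see `BalancedTwists`) shows that the sum of
`∏_{e ∈ Q} (u e - 1)` over the spanning sets `Q` of the direct sum of the cycle matroid of `S` and of the dual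
of the cycle matroid of `Γ / S` vanishes for `u e = exp (i y e)`, if `y(R) = y(R')` for all `R`, `R'` with
`2 |w(R) - w(R')| ≤ 6 k + 2 s`.  By Cramer's rule there is such a rational vector `y` with `y e ≠ 0` for all `e`
with `|w e| > k k! (3 k + s)`.  But for a series-parallel matroid without loops and parallel elements the sum
of the weights `∏_{e ∈ Q} v e` of the spanning sets is not zero if `|1 + v e| ≤ 1` for all `e` and the elements
with `v e ≠ 0` span.
-/

set_option autoImplicit false

namespace Pool.Agent.Results.MP_42db45_gt.HighlyTwistedArborescent

open Finset Pool.Agent.H891R2.MT Pool.Agent.H891R2.DS Run7.h509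

/-- Let `Γ` be a connected plane graph with `k ≥ 1` edges and `S` a set of edges such that the diagrams
`L(w) = twistLink Γ S w`, `w ∈ ℤ^k`, are twist-reduced, and let `Γ` be series-parallel (or let the
subgraph `S` and the graph `Γ / S` be series-parallel).  Let `w ∈ ℤ^k`, with arbitrary signs, have
`|w e| > k k! (3 k + s)` for all `e` in a spanning set `A` of twist regions (for example for all `e`).  Then the
Jones polynomial of `L(w)` has span larger than `s`, and it is not the Jones polynomial of an unlink with
at most `s + 1` components. -/
theorem result {k : ℕ} (Γ : Ribbon k) (hk : 0 < k) (hΓ : Γ.Planar) (S : Finset (Fin k))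
    (hred : TwistReduced Γ S Finset.univ)
    (hSP : SP (gr Γ) Finset.univ ∅ ∨ (SP (gr Γ) S ∅ ∧ SP (gr Γ) Sᶜ S)) (s : ℕ) (w : Fin k → ℤ)
    (A : Finset (Fin k)) (hA : Spans Γ S A)
    (hw : ∀ e ∈ A, (k * k.factorial * (3 * k + s) : ℤ) < |w e|) :
    ¬ SpanLE s (twistLink Γ S w) ∧
      ∀ c ≤ s + 1, ¬ UnlinkJones c (twistLink Γ S w) := by
  have h2 : SP (gr Γ) S ∅ ∧ SP (gr Γ) Sᶜ S := by
    rcases hSP with h | h
    · constructor
      · have h1 := h.delete (isRk_gr Γ) Sᶜ
        rwa [← Finset.compl_eq_univ_sdiff, compl_compl] at h1
      · have h1 := h.contract (isRk_gr Γ) S (Finset.subset_univ _)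
        rwa [← Finset.compl_eq_univ_sdiff, Finset.union_empty] at h1
    · exact h
  have key := sp_main Γ hk hΓ S hred (sp_both hΓ.1 S h2.1 h2.2) s w A hA hw
  exact ⟨key, fun c hc hU => key (unlink_span hc _ hU)⟩

end Pool.Agent.Results.MP_42db45_gt.HighlyTwistedArborescent
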